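import Pool.Agent.K1H49.PL.Fml

/-!
# Project PL: the positive formulas of a saturated structure form a `Sys`
-/

set_option autoImplicit false

namespace Pool.Agent.K1H1.PL

open FirstOrder Pool.Agent.K1H49.PL

universe u

variable {L : FirstOrder.Language.{0, 0}}

/-- relabelling of the free variables -/
def rl : {α : Type} → PF L α → {β : Type} → (α → β) → PF L β
  | _, .eq t s, _, f => .eq (t.relabel f) (s.relabel f)
  | _, .rel R ts, _, f => .rel R (fun i => (ts i).relabel f)
  | _, .top, _, _ => .top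
  | _, .bot, _, _ => .bot
  | _, .and φ ψ, _, f => .and (rl φ f) (rl ψ f)
  | _, .or φ ψ, _, f => .or (rl φ f) (rl ψ f)
  | _, .ex φ, _, f => .ex (rl φ (Option.map f))

variable {M : Type u} [L.Structure M]

theorem rl_realize {α : Type} (φ : PF L α) : ∀ {β : Type} (f : α → β) (v : β → M),
    (rl φ f).Realize v ↔ φ.Realize (v ∘ f) := by
  induction φ with
  | eq t s =>
    intro β f v
    simp only [rl, PF.Realize, FirstOrder.Language.Term.realize_relabel]
  | rel R ts =>
    intro β f v
    simp only [rl, PF.Realize, FirstOrder.Language.Term.realize_relabel]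
  | top => intro β f v; simp only [rl, PF.Realize]
  | bot => intro β f v; simp only [rl, PF.Realize]
  | and φ ψ h1 h2 => intro β f v; simp only [rl, PF.Realize, h1, h2]
  | or φ ψ h1 h2 => intro β f v; simp only [rl, PF.Realize, h1, h2]
  | ex φ h =>
    intro β f v
    simp only [rl, PF.Realize, h]
    refine exists_congr fun a => ?_
    have : (fun o : Option β => o.elim a v) ∘ Option.map f = fun o => o.elim a (v ∘ f) := by
      funext o
      cases o <;> rfl
    rw [this]

/-- the relabelling for the projection of one variable -/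
def g1 {α : Type} {k : ℕ} : α ⊕ Fin (k + 1) → Option (α ⊕ Fin k)
  | .inl a => some (.inl a)
  | .inr i => Fin.cases none (fun j => some (.inr j)) i

theorem projFin (M : Type u) [L.Structure M] : ∀ (k : ℕ) {α : Type} (φ : PF L (α ⊕ Fin k)),
    ∃ ψ : PF L α, ∀ v : α → M, ψ.Realize v ↔ ∃ w : Fin k → M, φ.Realize (Sum.elim v w) := by
  intro k
  induction k with
  | zero =>
    intro α φ
    refine ⟨rl φ (Sum.elim id Fin.elim0), fun v => ?_⟩
    rw [rl_realize]
    have : ∀ w : Fin 0 → M, Sum.elim v w = v ∘ Sum.elim id Fin.elim0 := by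
      intro w
      funext x
      rcases x with a | i
      · rfl
      · exact i.elim0
    constructor
    · intro h
      exact ⟨Fin.elim0, by rw [this]; exact h⟩
    · rintro ⟨w, h⟩
      rw [this] at h
      exact h
  | succ k ih =>
    intro α φ
    obtain ⟨ψ, hψ⟩ := ih (PF.ex (rl φ g1))
    refine ⟨ψ, fun v => ?_⟩
    rw [hψ]
    simp only [PF.Realize, rl_realize]
    have key : ∀ (w : Fin k → M) (a : M),
        (fun o : Option (α ⊕ Fin k) => o.elim a (Sum.elim v w)) ∘ g1 =
          Sum.elim v (Fin.cons a w : Fin (k + 1) → M) := by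
      intro w a
      funext x
      rcases x with b | i
      · rfl
      · refine Fin.cases ?_ (fun j => ?_) i <;> rfl
    constructor
    · rintro ⟨w, a, h⟩
      rw [key] at h
      exact ⟨_, h⟩
    · rintro ⟨w, h⟩
      refine ⟨Fin.tail w, w 0, ?_⟩
      rw [key, Fin.cons_self_tail]
      exact h

/-- The relations defined by positive formulas. -/
def Df (L : FirstOrder.Language.{0, 0}) (M : Type u) [L.Structure M] {α : Type}
    (S : Set (α → M)) : Prop := ∃ φ : PF L α, S = {v | φ.Realize v}

/-- **Piece PFS.** -/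
theorem t_PFS : S_PFS.{u} := by
  classical
  intro L M _ hsat
  refine ⟨{ D := fun {α} S => Df L M S, univ := ?_, inter := ?_, union := ?_, pull := ?_,
            proj := ?_, eq := ?_, sat := ?_ }, fun {α} S => Iff.rfl⟩
  · intro α
    exact ⟨.top, by ext v; simp [PF.Realize]⟩
  · rintro α _ _ ⟨φ, rfl⟩ ⟨ψ, rfl⟩
    exact ⟨.and φ ψ, by ext v; simp [PF.Realize]⟩
  · rintro α _ _ ⟨φ, rfl⟩ ⟨ψ, rfl⟩
    exact ⟨.or φ ψ, by ext v; simp [PF.Realize]⟩
  · rintro α β f _ ⟨φ, rfl⟩
    exact ⟨rl φ f, by ext v; simp only [Set.mem_ofPred_eq, rl_realize]⟩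
  · rintro α β _ _ ⟨φ, rfl⟩
    obtain ⟨k, ⟨e⟩⟩ := Finite.exists_equiv_fin β
    obtain ⟨ψ, hψ⟩ := projFin M k (rl φ (Sum.map id e))
    refine ⟨ψ, ?_⟩
    ext v
    simp only [Set.mem_ofPred_eq, hψ, rl_realize]
    have key : ∀ w : Fin k → M, Sum.elim v w ∘ Sum.map id e = Sum.elim v (w ∘ e) := by
      intro w
      funext x
      rcases x with a | b <;> rfl
    constructor
    · rintro ⟨w, h⟩
      refine ⟨w ∘ e.symm, ?_⟩
      rw [key]
      have : (w ∘ e.symm) ∘ e = w := by
        funext b
        simp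
      rw [this]
      exact h
    · rintro ⟨w, h⟩
      rw [key] at h
      exact ⟨_, h⟩
  · intro α i j
    exact ⟨.eq (.var i) (.var j), by ext v; simp [PF.Realize]⟩
  · intro α _ Γ hD hfin
    obtain ⟨v, hv⟩ := hsat α {φ | {v : α → M | φ.Realize v} ∈ Γ} (by
      intro Δ hΔ
      obtain ⟨v, hv⟩ := hfin (Δ.image fun φ => {v : α → M | φ.Realize v}) (by
        intro S hS
        obtain ⟨φ, hφ, rfl⟩ := Finset.mem_image.1 hS
        exact hΔ φ hφ)
      exact ⟨v, fun φ hφ => hv _ (Finset.mem_image_of_mem _ hφ)⟩)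
    refine ⟨v, fun S hS => ?_⟩
    obtain ⟨φ, rfl⟩ := hD S hS
    exact hv φ hS

end Pool.Agent.K1H1.PL
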