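import Pool.Agent.K1H27.PL.Stm
import Pool.Agent.K1H31.SN.Areag

/-! Pieces RAT and ROT of project PL. -/

set_option autoImplicit false

namespace Pool.Agent.K1H1.PL

open MeasureTheory Set Metric Filter Topology
open scoped ENNReal NNReal
open Pool.Agent.K1H27.PL

/-- from real bounds to bounds in `ENNReal` -/
theorem key_bound (ζ f : ℂ) (Q A γ : ℝ) (hQ : 0 ≤ Q) (hA : 0 < A) (hγ : 0 < γ)
    (h : ζ ≠ 0 → ‖f‖ ^ Q ≤ A * ‖ζ‖ ^ (-γ)) :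
    ‖f‖ₑ ^ Q ≤ ENNReal.ofReal A * (‖ζ‖ₑ⁻¹) ^ γ := by
  by_cases hz : ζ = 0
  · subst hz
    have h1 : (‖(0:ℂ)‖ₑ⁻¹ : ℝ≥0∞) ^ γ = ⊤ := by
      rw [enorm_zero, ENNReal.inv_zero, ENNReal.top_rpow_of_pos hγ]
    rw [h1, ENNReal.mul_top]
    · exact le_top
    · simpa using hA
  · have hx : 0 < ‖ζ‖ := norm_pos_iff.mpr hz
    have h1 : (‖ζ‖ₑ⁻¹ : ℝ≥0∞) ^ γ = ENNReal.ofReal (‖ζ‖ ^ (-γ)) := by
      rw [← ofReal_norm, ← ENNReal.ofReal_inv_of_pos hx,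
        ENNReal.ofReal_rpow_of_pos (inv_pos.mpr hx), Real.inv_rpow hx.le, Real.rpow_neg hx.le]
    rw [h1, ← ENNReal.ofReal_mul hA.le, ← ofReal_norm,
      ENNReal.ofReal_rpow_of_nonneg (norm_nonneg _) hQ]
    exact ENNReal.ofReal_le_ofReal (h hz)

/-- the integrated form -/
theorem key_int (R A γ : ℝ) (C : ℝ≥0) (hC : ∀ w : ℂ,
    ∫⁻ z in ball (0:ℂ) R, (‖z - w‖ₑ⁻¹) ^ γ ≤ C) (f : ℂ → ℂ) (ζ : ℂ) (Q : ℝ) (hQ : 0 ≤ Q)
    (hA : 0 < A) (hγ : 0 < γ) (h : ∀ w : ℂ, w ≠ 0 → ‖f w‖ ^ Q ≤ A * ‖w‖ ^ (-γ)) :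
    ∫⁻ z in ball (0:ℂ) R, ‖f (z - ζ)‖ₑ ^ Q ≤ C * ENNReal.ofReal A := by
  calc ∫⁻ z in ball (0:ℂ) R, ‖f (z - ζ)‖ₑ ^ Q
      ≤ ∫⁻ z in ball (0:ℂ) R, ENNReal.ofReal A * (‖z - ζ‖ₑ⁻¹) ^ γ :=
        lintegral_mono fun z => key_bound _ _ _ _ _ hQ hA hγ (h (z - ζ))
    _ = ENNReal.ofReal A * ∫⁻ z in ball (0:ℂ) R, (‖z - ζ‖ₑ⁻¹) ^ γ :=
        lintegral_const_mul' _ _ ENNReal.ofReal_ne_top
    _ ≤ ENNReal.ofReal A * C := by gcongr; exact hC ζ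
    _ = C * ENNReal.ofReal A := mul_comm _ _

theorem chi_diff {x ε ε' : ℝ} (hx : 0 < x) (h0 : 0 < ε') (h1 : ε' ≤ ε) :
    |x ^ 2 / (x ^ 2 + ε) - x ^ 2 / (x ^ 2 + ε')| ≤ ε / (x ^ 2 + ε) := by
  have hε : 0 < ε := h0.trans_le h1
  have hx2 : 0 < x ^ 2 := by positivity
  have h2 : x ^ 2 / (x ^ 2 + ε) ≤ x ^ 2 / (x ^ 2 + ε') := by gcongr
  have h3 : x ^ 2 / (x ^ 2 + ε') ≤ 1 := by
    rw [div_le_one (by positivity)]; linarith
  have h4 : 1 - x ^ 2 / (x ^ 2 + ε) = ε / (x ^ 2 + ε) := by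
    field_simp; ring
  rw [abs_sub_comm, abs_of_nonneg (by linarith)]
  linarith

theorem u_pow {x ε Q : ℝ} (hx : 0 < x) (hε : 0 < ε) (hQ : 1 ≤ Q) :
    (ε / (x ^ 2 + ε)) ^ Q ≤ ε ^ (1 / 4 : ℝ) * x ^ (-(1 / 2) : ℝ) := by
  have hx2 : 0 < x ^ 2 := by positivity
  have hu0 : 0 < ε / (x ^ 2 + ε) := by positivity
  have hu1 : ε / (x ^ 2 + ε) ≤ 1 := by
    rw [div_le_one (by positivity)]; linarith
  calc (ε / (x ^ 2 + ε)) ^ Q ≤ (ε / (x ^ 2 + ε)) ^ (1 / 4 : ℝ) :=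
        Real.rpow_le_rpow_of_exponent_ge hu0 hu1 (by linarith)
    _ ≤ (ε * x ^ (-2 : ℝ)) ^ (1 / 4 : ℝ) := by
        refine Real.rpow_le_rpow hu0.le ?_ (by norm_num)
        rw [Real.rpow_neg hx.le, div_eq_mul_inv]
        gcongr
        rw [Real.rpow_two]
        linarith
    _ = ε ^ (1 / 4 : ℝ) * x ^ (-(1 / 2) : ℝ) := by
        rw [Real.mul_rpow hε.le (by positivity), ← Real.rpow_mul hx.le]
        norm_num

theorem norm_aa (P : ℝ) (ζ : ℂ) : ‖aa P ζ‖ = ‖ζ‖ ^ (-(1 / P)) := by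
  rw [aa, Complex.norm_real, Real.norm_of_nonneg (by positivity)]

theorem norm_bb {P Q : ℝ} (hPQ : P.HolderConjugate Q) {ζ : ℂ} (hz : ζ ≠ 0) :
    ‖bb P ζ‖ = ‖ζ‖ ^ (-(1 / Q)) := by
  have hx : 0 < ‖ζ‖ := norm_pos_iff.mpr hz
  rw [bb, norm_mul, Complex.norm_real, Real.norm_of_nonneg (by positivity), norm_inv,
    ← Real.rpow_neg_one, ← Real.rpow_add hx]
  congr 1
  have := hPQ.inv_add_inv_eq_one
  rw [one_div, one_div]
  linarith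

theorem norm_chi {ε : ℝ} (hε : 0 < ε) (ζ : ℂ) : ‖chi ε ζ‖ ≤ 1 := by
  rw [chi, Complex.norm_real, Real.norm_of_nonneg (by positivity), div_le_one (by positivity)]
  linarith

theorem norm_chi_sub {ε ε' : ℝ} (h0 : 0 < ε') (h1 : ε' ≤ ε) {ζ : ℂ} (hz : ζ ≠ 0) :
    ‖chi ε ζ - chi ε' ζ‖ ≤ ε / (‖ζ‖ ^ 2 + ε) := by
  rw [chi, chi, ← Complex.ofReal_sub, Complex.norm_real, Real.norm_eq_abs]
  exact chi_diff (norm_pos_iff.mpr hz) h0 h1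

/-- the difference times a power -/
theorem diff_pow {ε ε' Q : ℝ} (h0 : 0 < ε') (h1 : ε' ≤ ε) (hQ : 1 ≤ Q) {ζ b : ℂ} (hz : ζ ≠ 0)
    (hb : ‖b‖ = ‖ζ‖ ^ (-(1 / Q))) :
    ‖chi ε ζ * b - chi ε' ζ * b‖ ^ Q ≤ ε ^ (1 / 4 : ℝ) * ‖ζ‖ ^ (-(3 / 2) : ℝ) := by
  have hx : 0 < ‖ζ‖ := norm_pos_iff.mpr hz
  have hε : 0 < ε := h0.trans_le h1
  rw [← sub_mul, norm_mul, Real.mul_rpow (norm_nonneg _) (norm_nonneg _), hb,
    ← Real.rpow_mul hx.le]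
  have e1 : -(1 / Q) * Q = -1 := by field_simp
  rw [e1]
  have h2 : ‖chi ε ζ - chi ε' ζ‖ ^ Q ≤ ε ^ (1 / 4 : ℝ) * ‖ζ‖ ^ (-(1 / 2) : ℝ) :=
    (Real.rpow_le_rpow (norm_nonneg _) (norm_chi_sub h0 h1 hz) (by linarith)).trans
      (u_pow hx hε hQ)
  calc ‖chi ε ζ - chi ε' ζ‖ ^ Q * ‖ζ‖ ^ (-1 : ℝ)
      ≤ (ε ^ (1 / 4 : ℝ) * ‖ζ‖ ^ (-(1 / 2) : ℝ)) * ‖ζ‖ ^ (-1 : ℝ) := by gcongr
    _ = ε ^ (1 / 4 : ℝ) * ‖ζ‖ ^ (-(3 / 2) : ℝ) := by
        rw [mul_assoc, ← Real.rpow_add hx]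
        norm_num

theorem chi_pow {ε Q : ℝ} (hε : 0 < ε) (hQ : 1 ≤ Q) {ζ b : ℂ} (hz : ζ ≠ 0)
    (hb : ‖b‖ = ‖ζ‖ ^ (-(1 / Q))) :
    ‖chi ε ζ * b‖ ^ Q ≤ 1 * ‖ζ‖ ^ (-(1 : ℝ)) := by
  have hx : 0 < ‖ζ‖ := norm_pos_iff.mpr hz
  have e1 : -(1 / Q) * Q = -1 := by field_simp
  calc ‖chi ε ζ * b‖ ^ Q ≤ (1 * ‖b‖) ^ Q := by
        refine Real.rpow_le_rpow (norm_nonneg _) ?_ (by linarith)
        rw [norm_mul]
        gcongr
        exact norm_chi hε ζ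
    _ = 1 * ‖ζ‖ ^ (-(1 : ℝ)) := by
        rw [one_mul, one_mul, hb, ← Real.rpow_mul hx.le, e1]

theorem t_RAT : S_RAT := by
  intro P Q hPQ R
  have hP1 : 1 ≤ P := hPQ.lt.le
  have hQ1 : 1 ≤ Q := hPQ.symm.lt.le
  obtain ⟨C1, hC1⟩ := Pool.Agent.K1H31.SN.t_AREAG R (3 / 2) (by norm_num) (by norm_num)
  obtain ⟨C2, hC2⟩ := Pool.Agent.K1H31.SN.t_AREAG R 1 (by norm_num) (by norm_num)
  obtain ⟨C3, hC3⟩ := Pool.Agent.K1H31.SN.t_AREAG R (1 / 2) (by norm_num) (by norm_num)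
  refine ⟨C1 + C2 + C3, ?_⟩
  intro ε ε' h0 h1 h2 ζ
  have hε : 0 < ε := h0.trans_le h1
  have hA : 0 < ε ^ (1 / 4 : ℝ) := by positivity
  have hc1 : (C1 : ℝ≥0∞) ≤ ((C1 + C2 + C3 : ℝ≥0) : ℝ≥0∞) := by
    exact_mod_cast (show C1 ≤ C1 + C2 + C3 by
      rw [add_assoc]; exact le_self_add)
  have hc2 : (C2 : ℝ≥0∞) ≤ ((C1 + C2 + C3 : ℝ≥0) : ℝ≥0∞) := by
    exact_mod_cast (show C2 ≤ C1 + C2 + C3 by
      rw [add_comm C1 C2, add_assoc]; exact le_self_add)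
  have hc3 : (C3 : ℝ≥0∞) ≤ ((C1 + C2 + C3 : ℝ≥0) : ℝ≥0∞) := by
    exact_mod_cast (show C3 ≤ C1 + C2 + C3 from le_add_self)
  refine ⟨?_, ?_, ?_, ?_, ?_⟩
  · refine (key_int R _ (3 / 2) C1 hC1 (fun w => chi ε w * bb P w - chi ε' w * bb P w) ζ Q
      (by linarith) hA (by norm_num) ?_).trans (by gcongr)
    intro w hw
    exact diff_pow h0 h1 hQ1 hw (norm_bb hPQ hw)
  · refine (key_int R _ (3 / 2) C1 hC1 (fun w => chi ε w * aa P w - chi ε' w * aa P w) ζ P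
      (by linarith) hA (by norm_num) ?_).trans (by gcongr)
    intro w hw
    exact diff_pow h0 h1 hP1 hw (norm_aa P w)
  · refine (key_int R _ (1 / 2) C3 hC3 (fun w => 1 - chi ε w) ζ Q
      (by linarith) hA (by norm_num) ?_).trans (by gcongr)
    intro w hw
    have hx : 0 < ‖w‖ := norm_pos_iff.mpr hw
    have e1 : ‖1 - chi ε w‖ = ε / (‖w‖ ^ 2 + ε) := by
      rw [chi, ← Complex.ofReal_one, ← Complex.ofReal_sub, Complex.norm_real]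
      have : (1 : ℝ) - ‖w‖ ^ 2 / (‖w‖ ^ 2 + ε) = ε / (‖w‖ ^ 2 + ε) := by
        field_simp; ring
      rw [this, Real.norm_of_nonneg (by positivity)]
    show ‖1 - chi ε w‖ ^ Q ≤ _
    rw [e1]
    exact u_pow hx hε hQ1
  · have := key_int R 1 1 C2 hC2 (fun w => chi ε w * bb P w) ζ Q
      (by linarith) one_pos one_pos (fun w hw => chi_pow hε hQ1 hw (norm_bb hPQ hw))
    rw [ENNReal.ofReal_one, mul_one] at this
    exact this.trans hc2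
  · have := key_int R 1 1 C2 hC2 (fun w => chi ε w * aa P w) ζ P
      (by linarith) one_pos one_pos (fun w hw => chi_pow hε hP1 hw (norm_aa P w))
    rw [ENNReal.ofReal_one, mul_one] at this
    exact this.trans hc2

/-- the rotated annulus -/
theorem rot_zero (ρ : ℝ) (n : ℕ) (hn : 1 ≤ n) :
    ∫ z, ({z : ℂ | ρ / 2 < ‖z‖ ∧ ‖z‖ < ρ}.indicator
      (fun z : ℂ => z ^ n * ((‖z‖⁻¹ : ℝ) : ℂ))) z = 0 := by
  set G : ℂ → ℂ := {z : ℂ | ρ / 2 < ‖z‖ ∧ ‖z‖ < ρ}.indicator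
      (fun z : ℂ => z ^ n * ((‖z‖⁻¹ : ℝ) : ℂ)) with hG
  have h1 : ∫ z, G (rotation (Circle.exp (Real.pi / n)) z) = ∫ z, G z :=
    ((rotation (Circle.exp (Real.pi / n))).measurePreserving).integral_comp
      (rotation (Circle.exp (Real.pi / n))).toHomeomorph.measurableEmbedding G
  have h2 : ∀ z, G (rotation (Circle.exp (Real.pi / n)) z) = - G z := by
    intro z
    have e1 : ‖rotation (Circle.exp (Real.pi / n)) z‖ = ‖z‖ :=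
      LinearIsometryEquiv.norm_map _ _
    have e2 : (rotation (Circle.exp (Real.pi / n)) z) ^ n = - z ^ n := by
      rw [rotation_apply, mul_pow, Circle.coe_exp, ← Complex.exp_nat_mul]
      have hn0 : (n : ℂ) ≠ 0 := by
        have : n ≠ 0 := by omega
        exact_mod_cast this
      have : (n : ℂ) * (((Real.pi / n : ℝ) : ℂ) * Complex.I) = Real.pi * Complex.I := by
        push_cast
        field_simp
      rw [this, Complex.exp_pi_mul_I]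
      ring
    by_cases hz : ρ / 2 < ‖z‖ ∧ ‖z‖ < ρ
    · rw [hG, Set.indicator_of_mem, Set.indicator_of_mem, e2, e1]
      · ring
      · exact hz
      · show ρ / 2 < ‖rotation (Circle.exp (Real.pi / n)) z‖ ∧
          ‖rotation (Circle.exp (Real.pi / n)) z‖ < ρ
        rw [e1]; exact hz
    · rw [hG, Set.indicator_of_notMem, Set.indicator_of_notMem, neg_zero]
      · exact hz
      · show ¬ (ρ / 2 < ‖rotation (Circle.exp (Real.pi / n)) z‖ ∧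
          ‖rotation (Circle.exp (Real.pi / n)) z‖ < ρ)
        rw [e1]; exact hz
  rw [integral_congr_ae (Eventually.of_forall h2), integral_neg] at h1
  exact self_eq_neg.mp h1.symm

theorem t_ROT : S_ROT := by
  intro c ρ hρ
  have hopen : IsOpen {z : ℂ | ρ / 2 < ‖z - c‖ ∧ ‖z - c‖ < ρ} := by
    have hc : Continuous fun z : ℂ => ‖z - c‖ := by fun_prop
    exact (isOpen_lt continuous_const hc).inter (isOpen_lt hc continuous_const)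
  refine ⟨?_, ?_⟩
  · intro n hn
    rw [← integral_indicator hopen.measurableSet, ← rot_zero ρ n hn,
      ← integral_add_right_eq_self _ c]
    congr 1
    funext z
    by_cases hz : ρ / 2 < ‖z‖ ∧ ‖z‖ < ρ
    · rw [Set.indicator_of_mem, Set.indicator_of_mem]
      · simp
      · exact hz
      · show ρ / 2 < ‖z + c - c‖ ∧ ‖z + c - c‖ < ρ
        simpa using hz
    · rw [Set.indicator_of_notMem, Set.indicator_of_notMem]
      · exact hz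
      · show ¬ (ρ / 2 < ‖z + c - c‖ ∧ ‖z + c - c‖ < ρ)
        simpa using hz
  · rw [integral_complex_ofReal]
    have hsub : {z : ℂ | ρ / 2 < ‖z - c‖ ∧ ‖z - c‖ < ρ} ⊆ ball c ρ := fun z hz => by
      rw [mem_ball, dist_eq_norm]; exact hz.2
    have hfin : volume {z : ℂ | ρ / 2 < ‖z - c‖ ∧ ‖z - c‖ < ρ} ≠ ⊤ :=
      ((measure_mono hsub).trans_lt measure_ball_lt_top).ne
    have hne : {z : ℂ | ρ / 2 < ‖z - c‖ ∧ ‖z - c‖ < ρ}.Nonempty := by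
      refine ⟨c + ((3 / 4 * ρ : ℝ) : ℂ), ?_⟩
      have : ‖c + ((3 / 4 * ρ : ℝ) : ℂ) - c‖ = 3 / 4 * ρ := by
        rw [add_sub_cancel_left, Complex.norm_real, Real.norm_of_nonneg (by positivity)]
      show ρ / 2 < ‖c + ((3 / 4 * ρ : ℝ) : ℂ) - c‖ ∧ ‖c + ((3 / 4 * ρ : ℝ) : ℂ) - c‖ < ρ
      rw [this]
      constructor <;> linarith
    have hpos : 0 < volume {z : ℂ | ρ / 2 < ‖z - c‖ ∧ ‖z - c‖ < ρ} := hopen.measure_pos _ hne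
    have hint : IntegrableOn (fun z : ℂ => ‖z - c‖⁻¹)
        {z : ℂ | ρ / 2 < ‖z - c‖ ∧ ‖z - c‖ < ρ} := by
      refine Measure.integrableOn_of_bounded (M := (ρ / 2)⁻¹) hfin ?_ ?_
      · exact (by fun_prop : Measurable fun z : ℂ => ‖z - c‖⁻¹).aestronglyMeasurable
      · refine (ae_restrict_iff' hopen.measurableSet).mpr (Eventually.of_forall fun z hz => ?_)
        rw [Real.norm_of_nonneg (by positivity)]
        exact inv_anti₀ (by positivity) hz.1.le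
    have hlow : ρ⁻¹ * volume.real {z : ℂ | ρ / 2 < ‖z - c‖ ∧ ‖z - c‖ < ρ} ≤
        ∫ z in {z : ℂ | ρ / 2 < ‖z - c‖ ∧ ‖z - c‖ < ρ}, ‖z - c‖⁻¹ := by
      refine setIntegral_ge_of_const_le_real hopen.measurableSet hfin ?_ hint
      intro z hz
      have h3 : 0 < ‖z - c‖ := (by positivity : 0 < ρ / 2).trans hz.1
      exact inv_anti₀ h3 hz.2.le
    have h4 : 0 < ρ⁻¹ * volume.real {z : ℂ | ρ / 2 < ‖z - c‖ ∧ ‖z - c‖ < ρ} := by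
      have : 0 < volume.real {z : ℂ | ρ / 2 < ‖z - c‖ ∧ ‖z - c‖ < ρ} :=
        ENNReal.toReal_pos hpos.ne' hfin
      positivity
    exact_mod_cast (h4.trans_le hlow).ne'

end Pool.Agent.K1H1.PL
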